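import Pool.Agent.Lib.MP_03c723_gt.Final

/-!
MP_03c723_gt, Q1 in dimension 3: convex bodies near the ball whose polar projection body is
homothetic to their difference body. In a class of bodies with tetrahedral symmetry they are
parametrised by their odd parts; in particular there is an infinite-dimensional family of
solutions which are neither ellipsoids nor simplices.
-/

namespace Pool.Agent.Results.MP_03c723_gt.BodiesNearBall

open PB3

/-- There is `δ₀ > 0` such that, for every `0 < δ ≤ δ₀` and every `C³` function `f` on `ℝ³` which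
changes sign under the reflections in the coordinate planes and is invariant under the cyclic
permutation of the coordinates, for all small `ε` there is exactly one convex body `K` such that
`(h_K(u) - h_K(-u)) / 2 = ε f(u)` on the unit sphere, `K` is `NearBall` with parameter `δ`, and the
polar projection body of `K` is homothetic to `K - K`. It is close to the unit ball, it is not a
polytope, and it has no centre of symmetry if `ε f` does not vanish on the unit sphere. -/
theorem result : ∃ δ₀ : ℝ, 0 < δ₀ ∧ ∀ f : E → ℝ, SymOdd f → ∀ δ : ℝ, 0 < δ → δ ≤ δ₀ →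
    ∃ ε₀ : ℝ, 0 < ε₀ ∧ ∀ ε : ℝ, |ε| ≤ ε₀ → ∃ K : Set E, NearSol K (fun x => ε * f x) δ ∧
      (∀ K' : Set E, NearSol K' (fun x => ε * f x) δ → K' = K) ∧
      CloseToBall K (10 * δ) ∧ NotPolytope K ∧
      ((∃ u : E, ‖u‖ = 1 ∧ ε * f u ≠ 0) → NoCentre K) := by
  obtain ⟨δ₀, h0, h⟩ := PB3.main
  refine ⟨δ₀, h0, fun f hf δ hδ hδ0 => ?_⟩
  obtain ⟨ε₀, he0, he⟩ := h f hf.smooth hf.flip hf.cyc δ hδ hδ0
  refine ⟨ε₀, he0, fun ε hε => ?_⟩
  obtain ⟨K, k1, k2, k3, k4, k5, k6, k7, k8⟩ := he ε hε
  refine ⟨K, ⟨k1, k2, k3, k4⟩, fun K' h' => k6 K' h'.body h'.odd h'.near h'.sol, k5, k7, ?_⟩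
  rintro ⟨u, hu, hne⟩
  exact k8 (left_ne_zero_of_mul hne) ⟨u, hu, right_ne_zero_of_mul hne⟩

end Pool.Agent.Results.MP_03c723_gt.BodiesNearBall
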